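import Pool.Agent.Q220.DualBound.SocFinal

/-!
# A polynomial dual bound for monotone second order cone inequalities

The definitions `maxFeasible` and `minNonDominated` are in `Pool.Agent.Q220.DualBound.Defs`, the
definition `socFun` is in `Pool.Agent.Q220.DualBound.SocFinal`.
-/

set_option autoImplicit false

open Q220.DualBound

namespace Pool.Agent.Results.MP_91ff8f_lc.SocDualBound

/-- **Theorem.** (1) For every second order cone inequality `‖A x‖ + b x ≤ t` with `d` rows in `n`
variables, where `A` and `b` have non-negative entries, for every integer box and for every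
subfamily `Y` of the family of the maximal feasible vectors, the number of the minimal infeasible
vectors that are minimal non-dominated elements of `Y` is at most `1 + 5 |Y| (n + 1) ^ 10`,
whatever `d` is. (2) The same is true, with an additional factor `r`, for every system of `r`
second order cone inequalities, with any numbers of rows. -/
theorem result :
    (∀ (n d : ℕ) (A : Fin d → Fin n → ℝ) (b : Fin n → ℝ) (t : ℝ) (c : Fin n → ℕ)
      (Y : Finset (Fin n → ℕ)),
      (∀ i j, 0 ≤ A i j) → (∀ j, 0 ≤ b j) →
      (Y : Set (Fin n → ℕ)) ⊆ maxFeasible c (fun x => socFun A b x ≤ t) →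
      (minNonDominated c Y ∩ minNonDominated c
        (maxFeasible c fun x => socFun A b x ≤ t)).encard ≤
        ((1 + 5 * Y.card * (n + 1) ^ 10 : ℕ) : ℕ∞)) ∧
    (∀ (n r : ℕ) (d : Fin r → ℕ) (A : ∀ s, Fin (d s) → Fin n → ℝ) (b : Fin r → Fin n → ℝ)
      (t : Fin r → ℝ) (c : Fin n → ℕ) (Y : Finset (Fin n → ℕ)),
      (∀ s i j, 0 ≤ A s i j) → (∀ s j, 0 ≤ b s j) →
      (Y : Set (Fin n → ℕ)) ⊆ maxFeasible c (fun x => ∀ s, socFun (A s) (b s) x ≤ t s) →
      (minNonDominated c Y ∩ minNonDominated c
        (maxFeasible c fun x => ∀ s, socFun (A s) (b s) x ≤ t s)).encard ≤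
        ((r * (1 + 5 * Y.card * (n + 1) ^ 10) : ℕ) : ℕ∞)) :=
  ⟨fun _ _ A b t c Y hA hb hY => soc_bound A b t c Y hA hb hY,
    fun _ _ d A b t c Y hA hb hY => soc_system d A b t c Y hA hb hY⟩

end Pool.Agent.Results.MP_91ff8f_lc.SocDualBound
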